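import Pool.Agent.W973.SRR.Defs
import Pool.Agent.H671R2.PolyAuto

set_option autoImplicit false

namespace Pool.Agent.W390.SRR

open Pool.Agent.W973.SRR Pool.Agent.NPC

theorem p1 : S_P1 := by
  unfold S_P1 nae rl
  fun_prop

end Pool.Agent.W390.SRR
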